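import Pool.Agent.BLP.StmtsE

/-!
# Squad BLP (MP_2ae58c_pr), row E_EDL: strict inequality to the left of the direction
-/

set_option autoImplicit false

namespace Pool.Agent.BLP.H29

open Pool.Agent.BLP

/-- the polynomial inequality -/
theorem edl_poly {q q' G M t w k s : ℝ} (hq' : 0 < q') (hq : q' < q)
    (hG : 4 * q * G = (q - q') ^ 2) (hM : 0 < M) (ht : 0 ≤ t) (htM : t ≤ M * q')
    (hw : 0 ≤ w) (hwM : w ≤ M * (G / 4)) (hwq : w ≤ M * q') (hk : |k| * (2 * q') ≤ G / 8 * M)
    (hs : |s| ≤ G / 8 * M) :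
    4 * q * ((M - k) * (t + w)) < (M * q + t + (s - G / 8 * M)) ^ 2 ∧
      0 < M * q + t + (s - G / 8 * M) := by
  have hq0 : 0 < q := hq'.trans hq
  have hqq : 0 < (q - q') ^ 2 := by
    have : 0 < q - q' := by linarith
    positivity
  have hG0 : 0 < G := by
    by_contra h
    have h1 : 4 * q * G ≤ 0 := mul_nonpos_of_nonneg_of_nonpos (by linarith) (not_lt.mp h)
    linarith
  have hGq : G < q / 4 := by
    have h1 : (q - q') ^ 2 < q ^ 2 := by nlinarith
    have h2 : 4 * q * G < 4 * q * (q / 4) := by nlinarith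
    exact lt_of_mul_lt_mul_left h2 (by linarith)
  have hs1 := (abs_le.mp hs).1
  have hs2 := (abs_le.mp hs).2
  have e1 : -(G / 4 * M) ≤ s - G / 8 * M := by linarith
  have hGM : 0 < G * M := mul_pos hG0 hM
  have hqM : 0 < q * M := mul_pos hq0 hM
  have P1 : M * q ≤ M * q + t := by linarith
  have P2 : M * q + t ≤ 2 * q * M := by
    have : M * q' ≤ M * q := mul_le_mul_of_nonneg_left hq.le hM.le
    linarith
  refine ⟨?_, ?_⟩
  · -- the left side
    have a1 : (M - k) * (t + w) ≤ M * t + M * w + |k| * (t + w) := by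
      have : -k * (t + w) ≤ |k| * (t + w) :=
        mul_le_mul_of_nonneg_right (neg_le_abs k) (by linarith)
      linarith
    have a2 : M * w ≤ M * (M * (G / 4)) := mul_le_mul_of_nonneg_left hwM hM.le
    have a3 : |k| * (t + w) ≤ G / 8 * M * M := by
      calc |k| * (t + w) ≤ |k| * (2 * q' * M) :=
            mul_le_mul_of_nonneg_left (by linarith) (abs_nonneg k)
        _ = |k| * (2 * q') * M := by ring
        _ ≤ G / 8 * M * M := mul_le_mul_of_nonneg_right hk hM.le
    have a4 : (M - k) * (t + w) ≤ M * t + 3 / 8 * (G * M * M) := by linarith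
    have a5 : 4 * q * ((M - k) * (t + w)) ≤ 4 * q * (M * t + 3 / 8 * (G * M * M)) :=
      mul_le_mul_of_nonneg_left a4 (by linarith)
    -- the right side
    have b1 : (M * q + t) ^ 2 + 2 * (M * q + t) * (s - G / 8 * M) ≤
        (M * q + t + (s - G / 8 * M)) ^ 2 := by nlinarith [sq_nonneg (s - G / 8 * M)]
    have b2 : -(q * (G * M * M)) ≤ 2 * (M * q + t) * (s - G / 8 * M) := by
      have c1 : 2 * (M * q + t) * -(G / 4 * M) ≤ 2 * (M * q + t) * (s - G / 8 * M) :=
        mul_le_mul_of_nonneg_left e1 (by linarith)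
      have c2 : (M * q + t) * (G * M) ≤ 2 * q * M * (G * M) :=
        mul_le_mul_of_nonneg_right P2 hGM.le
      nlinarith
    have b3 : (M * (q - q')) ^ 2 ≤ (M * q - t) ^ 2 := by
      apply pow_le_pow_left₀ (mul_nonneg hM.le (by linarith))
      linarith
    have b4 : (M * (q - q')) ^ 2 = 4 * (q * (G * M * M)) := by
      have : (M * (q - q')) ^ 2 = M ^ 2 * (q - q') ^ 2 := by ring
      rw [this, ← hG]
      ring
    have b5 : (M * q + t) ^ 2 = (M * q - t) ^ 2 + 4 * q * (M * t) := by ring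
    have b6 : 0 < q * (G * M * M) := by positivity
    have b7 : 4 * q * (M * t + 3 / 8 * (G * M * M)) =
        4 * q * (M * t) + 3 / 2 * (q * (G * M * M)) := by ring
    linarith
  · have c1 : G * M < q / 4 * M := mul_lt_mul_of_pos_right hGq hM
    nlinarith

/-- row E_EDL -/
theorem e_edl : EdlStmt := by
  intro c q q₁ m s hc hq₁ hq
  set q' : ℝ := (q + q₁) / 2 with hq'
  have h1 : q₁ < q' := by rw [hq']; linarith
  have h2 : q' < q := by rw [hq']; linarith
  have hq'0 : 0 < q' := hq₁.trans h1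
  have hq0 : 0 < q := hq'0.trans h2
  set G : ℝ := (q - q') ^ 2 / (4 * q) with hG
  have hG4 : 4 * q * G = (q - q') ^ 2 := by
    rw [hG]
    field_simp
  have hG0 : 0 < G := by
    rw [hG]
    have : 0 < q - q' := by linarith
    positivity
  set a : ℝ := Real.sqrt q with ha
  have ha0 : 0 < a := Real.sqrt_pos.mpr hq0
  have haq : a ^ 2 = q := Real.sq_sqrt hq0.le
  obtain ⟨J, hJ⟩ := exists_nat_ge (q' / (G / 4) + 1)
  have hJ1 : (1 : ℝ) ≤ J := by
    have : 0 ≤ q' / (G / 4) := by positivity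
    linarith
  have hJG : q' ≤ G / 4 * J := by
    have h3 : q' / (G / 4) ≤ J := by linarith
    rw [div_le_iff₀ (by positivity)] at h3
    linarith
  obtain ⟨M₀, hM₀⟩ := exists_nat_ge (|(m : ℝ)| * (2 * q') / (G / 8) + |s| / (G / 8) +
    |s| / (q' - q₁) + 1)
  refine ⟨c * G / (64 * a), J, M₀, by positivity, by exact_mod_cast hJ1, ?_⟩
  intro M hM t w ht htM hw hwM
  have hMM : (|(m : ℝ)| * (2 * q') / (G / 8) + |s| / (G / 8) + |s| / (q' - q₁) + 1) ≤ (M : ℝ) :=
    hM₀.trans (by exact_mod_cast hM)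
  have g1 : 0 ≤ |(m : ℝ)| * (2 * q') / (G / 8) := by positivity
  have g2 : 0 ≤ |s| / (G / 8) := by positivity
  have g3 : 0 ≤ |s| / (q' - q₁) := div_nonneg (abs_nonneg s) (by linarith)
  have hM0 : (0 : ℝ) < M := by linarith
  have k1 : |(m : ℝ)| * (2 * q') ≤ G / 8 * M := by
    have : |(m : ℝ)| * (2 * q') / (G / 8) ≤ M := by linarith
    rw [div_le_iff₀ (by positivity)] at this
    linarith
  have k2 : |s| ≤ G / 8 * M := by
    have : |s| / (G / 8) ≤ M := by linarith
    rw [div_le_iff₀ (by positivity)] at this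
    linarith
  have k3 : |s| ≤ M * (q' - q₁) := by
    have : |s| / (q' - q₁) ≤ M := by linarith
    rwa [div_le_iff₀ (by linarith)] at this
  have k4 : M * q₁ - s ≤ M * q' := by
    have := neg_abs_le s
    linarith
  have k5 : t ≤ M * q' := htM.trans k4
  have hJ0 : (0 : ℝ) < J := by linarith
  have k6 : w ≤ M * q' / J := hwM.trans (div_le_div_of_nonneg_right k4 hJ0.le)
  have k7 : w ≤ M * (G / 4) := by
    refine k6.trans ?_
    rw [div_le_iff₀ hJ0]
    calc (M : ℝ) * q' ≤ M * (G / 4 * J) := mul_le_mul_of_nonneg_left hJG hM0.le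
      _ = M * (G / 4) * J := by ring
  have k8 : w ≤ M * q' := by
    refine k6.trans ?_
    rw [div_le_iff₀ hJ0]
    have : 0 ≤ (M : ℝ) * q' := by positivity
    nlinarith
  obtain ⟨p1, p2⟩ := edl_poly hq'0 h2 hG4 hM0 ht k5 hw k7 k8 k1 k2
  have e1 : 1 / 2 * (M * a + (s + t) / a) - G / (16 * a) * M =
      (M * q + t + (s - G / 8 * M)) / (2 * a) := by
    rw [← haq]
    field_simp
    ring
  have e2 : Real.sqrt (((M : ℝ) - m) * (t + w)) <
      1 / 2 * (M * a + (s + t) / a) - G / (16 * a) * M := by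
    rw [e1, Real.sqrt_lt' (by positivity), div_pow, lt_div_iff₀ (by positivity)]
    calc ((M : ℝ) - m) * (t + w) * (2 * a) ^ 2 = 4 * a ^ 2 * (((M : ℝ) - m) * (t + w)) := by ring
      _ = 4 * q * (((M : ℝ) - m) * (t + w)) := by rw [haq]
      _ < _ := p1
  have e3 : c * Real.sqrt (((M : ℝ) - m) * (t + w)) <
      c * (1 / 2 * (M * a + (s + t) / a) - G / (16 * a) * M) := mul_lt_mul_of_pos_left e2 hc
  have e4 : c * (1 / 2 * (M * a + (s + t) / a) - G / (16 * a) * M) =
      c / 2 * (M * a + (s + t) / a) - 4 * (c * G / (64 * a)) * M := by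
    field_simp
    ring
  rw [e4] at e3
  linarith

end Pool.Agent.BLP.H29
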