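import Pool.Agent.BLP.StmtsF

/-!
# Squad BLP (MP_2ae58c_pr), rows F_FCP and F_FDI: convergence in measure
-/

set_option autoImplicit false

namespace Pool.Agent.BLP.H29

open Pool.Agent.BLP MeasureTheory Filter Topology

/-- a strictly increasing sequence with given lower bounds -/
theorem exists_strict (N : ℕ → ℕ) : ∃ φ : ℕ → ℕ, StrictMono φ ∧ ∀ k, N k ≤ φ k := by
  refine ⟨fun k => k + ∑ j ∈ Finset.range (k + 1), N j, ?_, ?_⟩
  · refine strictMono_nat_of_lt_succ fun n => ?_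
    show n + ∑ j ∈ Finset.range (n + 1), N j < n + 1 + ∑ j ∈ Finset.range (n + 1 + 1), N j
    rw [Finset.sum_range_succ _ (n + 1)]
    omega
  · intro k
    show N k ≤ k + ∑ j ∈ Finset.range (k + 1), N j
    rw [Finset.sum_range_succ]
    omega

theorem pow_half_pos (k : ℕ) : (0 : ℝ) < (1 / 2) ^ k := by positivity

theorem tsum_half_ne : ∑' k : ℕ, ENNReal.ofReal ((1 / 2 : ℝ) ^ k) ≠ ⊤ := by
  rw [← ENNReal.ofReal_tsum_of_nonneg (fun n => (pow_half_pos n).le) summable_geometric_two]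
  exact ENNReal.ofReal_ne_top

/-- row F_FCP -/
theorem f_fcp : FcpStmt := by
  intro X _ μ _ f hf hC
  choose N hN using fun k : ℕ => hC ((1 / 2) ^ k) ((1 / 2) ^ k) (pow_half_pos k) (pow_half_pos k)
  obtain ⟨φ, hφ, hφN⟩ := exists_strict N
  have h1 : ∀ k, μ {x | (1 / 2 : ℝ) ^ k < |f (φ k) x - f (φ (k + 1)) x|} ≤
      ENNReal.ofReal ((1 / 2 : ℝ) ^ k) := fun k =>
    hN k (φ k) (φ (k + 1)) (hφN k) ((hφN k).trans (hφ (Nat.lt_succ_self k)).le)
  have h2 := ae_eventually_notMem (ne_top_of_le_ne_top tsum_half_ne (ENNReal.tsum_le_tsum h1))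
  have h3 : ∀ᵐ x ∂μ, ∃ l : ℝ, Tendsto (fun k => f (φ k) x) atTop (𝓝 l) := by
    filter_upwards [h2] with x hx
    obtain ⟨K, hK⟩ := eventually_atTop.mp hx
    have h4 : CauchySeq fun k => f (φ (k + K)) x := by
      refine cauchySeq_of_le_geometric (1 / 2) 1 (by norm_num) ?_
      intro k
      have h5 := hK (k + K) (Nat.le_add_left K k)
      have h6 : |f (φ (k + K)) x - f (φ (k + K + 1)) x| ≤ (1 / 2 : ℝ) ^ (k + K) := not_lt.mp h5
      rw [Real.dist_eq, show k + 1 + K = k + K + 1 by omega, one_mul]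
      refine h6.trans ?_
      exact pow_le_pow_of_le_one (by norm_num) (by norm_num) (Nat.le_add_right k K)
    obtain ⟨l, hl⟩ := cauchySeq_tendsto_of_complete h4
    exact ⟨l, (tendsto_add_atTop_iff_nat K).mp hl⟩
  obtain ⟨g, hg, hlim⟩ := measurable_limit_of_tendsto_metrizable_ae
    (fun k => (hf (φ k)).aemeasurable) h3
  have h7 : TendstoInMeasure μ (fun k => f (φ k)) atTop g :=
    tendstoInMeasure_of_tendsto_ae (fun k => (hf (φ k)).aestronglyMeasurable) hlim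
  refine ⟨g, hg, ?_⟩
  rw [tendstoInMeasure_iff_dist] at h7 ⊢
  intro ε hε
  rw [ENNReal.tendsto_atTop_zero]
  intro δ hδ
  by_cases hδt : δ = ⊤
  · exact ⟨0, fun n _ => by rw [hδt]; exact le_top⟩
  have hδr : 0 < δ.toReal := ENNReal.toReal_pos hδ.ne' hδt
  obtain ⟨N₀, hN₀⟩ := hC (ε / 4) (δ.toReal / 2) (by positivity) (by positivity)
  have h8 := (ENNReal.tendsto_atTop_zero.mp (h7 (ε / 2) (by positivity))) (ENNReal.ofReal (δ.toReal / 2))
    (ENNReal.ofReal_pos.mpr (by positivity))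
  obtain ⟨K, hK⟩ := h8
  obtain ⟨k, hk1, hk2⟩ : ∃ k, K ≤ k ∧ N₀ ≤ φ k :=
    ⟨max K N₀, le_max_left _ _, (le_max_right _ _).trans (hφ.id_le _)⟩
  refine ⟨N₀, fun n hn => ?_⟩
  have h9 : {x | ε ≤ dist (f n x) (g x)} ⊆ {x | ε / 4 < |f n x - f (φ k) x|} ∪
      {x | ε / 2 ≤ dist (f (φ k) x) (g x)} := by
    intro x hx
    by_contra hcon
    rw [Set.mem_union, not_or] at hcon
    obtain ⟨c1, c2⟩ := hcon
    have c1' : |f n x - f (φ k) x| ≤ ε / 4 := not_lt.mp c1
    have c2' : dist (f (φ k) x) (g x) < ε / 2 := not_le.mp c2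
    have c3 := dist_triangle (f n x) (f (φ k) x) (g x)
    rw [Real.dist_eq (f n x) (f (φ k) x)] at c3
    have hx' : ε ≤ dist (f n x) (g x) := hx
    linarith
  calc μ {x | ε ≤ dist (f n x) (g x)} ≤ _ := measure_mono h9
    _ ≤ μ {x | ε / 4 < |f n x - f (φ k) x|} + μ {x | ε / 2 ≤ dist (f (φ k) x) (g x)} :=
        measure_union_le _ _
    _ ≤ ENNReal.ofReal (δ.toReal / 2) + ENNReal.ofReal (δ.toReal / 2) :=
        add_le_add (hN₀ n (φ k) hn hk2) (hK k hk1)
    _ = δ := by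
        rw [← ENNReal.ofReal_add (by positivity) (by positivity), add_halves,
          ENNReal.ofReal_toReal hδt]

/-- row F_FDI -/
theorem f_fdi : FdiStmt := by
  intro X _ μ ι _ f g hfg
  rcases isEmpty_or_nonempty ι with hι | hι
  · exact ⟨id, strictMono_id, Eventually.of_forall fun x i => (hι.false i).elim⟩
  obtain ⟨e, he⟩ := exists_surjective_nat ι
  have h1 : ∀ j i : ℕ, ∃ N : ℕ, ∀ n, N ≤ n →
      μ {x | (1 / 2 : ℝ) ^ j ≤ dist (f (e i) n x) (g (e i) x)} ≤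
        ENNReal.ofReal ((1 / 2 : ℝ) ^ j) := fun j i =>
    (ENNReal.tendsto_atTop_zero.mp
      ((tendstoInMeasure_iff_dist.mp (hfg (e i))) _ (pow_half_pos j))) _
      (ENNReal.ofReal_pos.mpr (pow_half_pos j))
  choose N hN using h1
  obtain ⟨φ, hφ, hφN⟩ := exists_strict fun j => ∑ i ∈ Finset.range (j + 1), N j i
  refine ⟨φ, hφ, ?_⟩
  have h2 : ∀ j i : ℕ, i ≤ j → N j i ≤ φ j := fun j i hij =>
    (Finset.single_le_sum (f := fun i => N j i) (fun _ _ => Nat.zero_le _)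
      (Finset.mem_range.mpr (Nat.lt_succ_of_le hij))).trans (hφN j)
  have h3 : ∀ i : ℕ, ∀ᵐ x ∂μ, Tendsto (fun j => f (e i) (φ j) x) atTop (𝓝 (g (e i) x)) := by
    intro i
    have h4 : ∀ j : ℕ, μ {x | (1 / 2 : ℝ) ^ (j + i) ≤ dist (f (e i) (φ (j + i)) x) (g (e i) x)} ≤
        ENNReal.ofReal ((1 / 2 : ℝ) ^ j) := by
      intro j
      refine (hN (j + i) i (φ (j + i)) (h2 _ _ (Nat.le_add_left i j))).trans ?_
      refine ENNReal.ofReal_le_ofReal ?_
      exact pow_le_pow_of_le_one (by norm_num) (by norm_num) (Nat.le_add_right j i)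
    have h5 := ae_eventually_notMem (ne_top_of_le_ne_top tsum_half_ne (ENNReal.tsum_le_tsum h4))
    filter_upwards [h5] with x hx
    refine (tendsto_add_atTop_iff_nat i).mp ?_
    rw [tendsto_iff_dist_tendsto_zero]
    refine squeeze_zero' (Eventually.of_forall fun j => dist_nonneg) ?_
      ((tendsto_add_atTop_iff_nat i).mpr
        (tendsto_pow_atTop_nhds_zero_of_lt_one (r := (1 / 2 : ℝ)) (by norm_num) (by norm_num)))
    filter_upwards [hx] with j hj
    exact (not_le.mp hj).le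
  have h4 := ae_all_iff.mpr h3
  filter_upwards [h4] with x hx i
  obtain ⟨k, rfl⟩ := he i
  exact hx k

end Pool.Agent.BLP.H29
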